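import Pool.Agent.DEN68.Stmts

/-!
# DEN: DNG, the theorem for groups (helper21)
-/

set_option autoImplicit false

namespace Pool.Agent.DEN68

open Finset Real Pool.Agent.BR
open scoped Classical

theorem DNG_supp {Ω : Type} [Fintype Ω] {q : Ω → ℝ} (hq : IsLaw q) (V : Finset Ω)
    (hV : ∀ x, q x ≠ 0 → x ∈ V) : 0 < (V.card : ℝ) ∧ ent q ≤ log V.card := by
  have hne : V.Nonempty := by
    by_contra h
    rw [not_nonempty_iff_eq_empty] at h
    have h1 : ∑ x, q x = 0 := sum_eq_zero fun x _ => by
      by_contra h2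
      have := hV x h2
      rw [h] at this
      exact notMem_empty _ this
    rw [hq.sum] at h1
    exact one_ne_zero h1
  have hc : 0 < (V.card : ℝ) := by exact_mod_cast hne.card_pos
  refine ⟨hc, ?_⟩
  have hsum : ∀ f : Ω → ℝ, (∀ x, q x = 0 → f x = 0) → ∑ x ∈ V, f x = ∑ x, f x := by
    intro f hf
    refine sum_subset (subset_univ V) ?_
    intro x _ hx
    apply hf
    by_contra h2
    exact hx (hV x h2)
  have hs1 : ∑ x ∈ V, q x = 1 := by
    rw [hsum q fun _ h => h, hq.sum]
  have h := gibbs V q (fun _ => 1 / (V.card : ℝ)) (fun i _ => hq.nn i)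
    (fun _ _ => by positivity) (fun _ _ h => by
      exfalso
      have : (0 : ℝ) < 1 / (V.card : ℝ) := by positivity
      linarith) (by
      rw [hs1, sum_const, nsmul_eq_mul, mul_one_div_cancel hc.ne'])
  rw [← sum_mul, hs1, one_mul, one_div, log_inv] at h
  have e : ent q = -∑ x ∈ V, q x * log (q x) := by
    rw [hsum (fun x => q x * log (q x)) fun x hx => by rw [hx, zero_mul]]
    unfold ent
    rw [← sum_neg_distrib]
    refine sum_congr rfl fun a _ => by unfold negMulLog; ring
  rw [e]
  linarith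

theorem thm_DNG (h1 : St_LSD) (h2 : St_FBC) : St_DNG := by
  intro eps he he1
  set Y : ℝ := (12 / eps) ^ 400 with hY
  have hY0 : 0 < Y := pow_pos (div_pos (by norm_num) he) 400
  have hYi : (eps / 12) ^ 400 * Y = 1 := by
    rw [hY, ← mul_pow, div_mul_div_comm, mul_comm 12 eps, div_self (by positivity), one_pow]
  set J : ℕ := ⌈500 / eps * Y⌉₊ + 1 with hJ
  have hJ1 : 1 ≤ J := by omega
  have hJ2 : 500 / eps * Y ≤ J := by
    have h3 := Nat.le_ceil (500 / eps * Y)
    rw [hJ]
    push_cast
    linarith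
  have hJ0 : (0 : ℝ) < J := by exact_mod_cast hJ1
  refine ⟨8 * (2 ^ J + 1) + 8, by positivity, ?_⟩
  intro G _ _ hG A l hA hl hel
  have hl1 : 1 ≤ l := by
    by_contra hcon
    push Not at hcon
    have : eps * l < 1 := by
      rcases le_or_gt l 0 with h0 | h0
      · nlinarith
      · calc eps * l ≤ 1 * l := mul_le_mul_of_nonneg_right he1 h0.le
          _ = l := one_mul l
          _ < 1 := hcon
    linarith
  have hl0 : 0 < l := by linarith
  obtain ⟨W, B, p, hB, hS, hp, hcod, hI, hD, hsup⟩ := h2 G hG A l J hA hl0 hJ1 hl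
  have hW : ∀ x : W, x + x = 0 := fun x => Subtype.ext (hG x)
  refine ⟨W, ?_, ?_⟩
  · have hlog : log 2 ≤ 1 := by
      have := Real.log_two_lt_d9
      linarith
    calc cod W ≤ 4 * (2 * (2 ^ J + 1) * l + 2 * log 2) := hcod
      _ ≤ (8 * (2 ^ J + 1) + 8) * l := by nlinarith
  · have hcl := conv_law hp hp
    rcases le_or_gt (Df (conv p p)) (eps * l) with hc | hc
    · obtain ⟨hV0, hV⟩ := DNG_supp hcl
        (univ.filter fun w : W => ∃ a ∈ A, ∃ b ∈ A, ∃ c ∈ A, ∃ d ∈ A,
          (w : G) = a + b + c + d) (by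
        intro x hx
        rw [mem_filter]
        refine ⟨mem_univ _, ?_⟩
        obtain ⟨y, -, hy⟩ := exists_ne_zero_of_sum_ne_zero hx
        have hy1 : p y ≠ 0 := left_ne_zero_of_mul hy
        have hy2 : p (x + y) ≠ 0 := right_ne_zero_of_mul hy
        obtain ⟨a, ha, b, hb, c, hc', d, hd, h⟩ := hsup (x + y) y hy2 hy1
        refine ⟨a, ha, b, hb, c, hc', d, hd, ?_⟩
        rw [← h]
        change (x : G) = x + y + y
        rw [add_assoc, hG, add_zero])
      have hW0 : (0 : ℝ) < (Nat.card W : ℝ) := by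
        exact_mod_cast Nat.card_pos
      have hcard : (Fintype.card W : ℝ) = (Nat.card W : ℝ) := by
        rw [Nat.card_eq_fintype_card]
      unfold Df at hc
      rw [hcard] at hc
      have h3 : log (Nat.card W) ≤ eps * l + log
          ((univ.filter fun w : W => ∃ a ∈ A, ∃ b ∈ A, ∃ c ∈ A, ∃ d ∈ A,
            (w : G) = a + b + c + d).card : ℝ) := by linarith
      have h4 : (Nat.card W : ℝ) ≤ exp (eps * l) *
          ((univ.filter fun w : W => ∃ a ∈ A, ∃ b ∈ A, ∃ c ∈ A, ∃ d ∈ A,
            (w : G) = a + b + c + d).card : ℝ) := by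
        calc (Nat.card W : ℝ) = exp (log (Nat.card W)) := (exp_log hW0).symm
          _ ≤ exp (eps * l + log _) := exp_le_exp.2 h3
          _ = _ := by rw [exp_add, exp_log hV0]
      calc exp (-(eps * l)) * (Nat.card W : ℝ) ≤ exp (-(eps * l)) * (exp (eps * l) * _) :=
            mul_le_mul_of_nonneg_left h4 (exp_pos _).le
        _ = _ := by rw [← mul_assoc, ← exp_add, neg_add_cancel, exp_zero, one_mul]
    · exfalso
      have hle := Df_conv_le hW hp hp
      have hDp : eps * l < Df p := by linarith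
      have hD1 : 1 ≤ Df p := by linarith
      have hD0 : 0 < Df p := by linarith
      have h3 := h1 W hW B p hB hS hp hD1
      have h4 : eps / 12 ≤ Df (conv p p) / Df p := by
        rw [div_le_div_iff₀ (by norm_num) hD0]
        nlinarith
      have hq0 : 0 ≤ Df (conv p p) / Df p := le_trans (by positivity) h4
      have h5 : (eps / 12) ^ 400 ≤ (Df (conv p p) / Df p) ^ 400 :=
        pow_le_pow_left₀ (by positivity) h4 400
      have h6 : (eps / 12) ^ 400 * (eps * l) ≤ 9 * (48 * l / J) := by
        calc (eps / 12) ^ 400 * (eps * l) ≤ (Df (conv p p) / Df p) ^ 400 * Df p :=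
              mul_le_mul h5 hDp.le (mul_pos he hl0).le (pow_nonneg hq0 400)
          _ ≤ 9 * Ib B p := h3
          _ ≤ 9 * (48 * l / J) := mul_le_mul_of_nonneg_left hI (by norm_num)
      set Z : ℝ := (eps / 12) ^ 400 with hZ
      have hZ0 : 0 < Z := pow_pos (div_pos he (by norm_num)) 400
      have h7 : Z * (eps * l) * J ≤ 432 * l := by
        have h8 : 9 * (48 * l / J) = 432 * l / J := by ring
        rw [h8, le_div_iff₀ hJ0] at h6
        exact h6
      have h9 : 500 * l ≤ Z * (eps * l) * J := by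
        calc 500 * l = Z * (eps * l) * (500 / eps * Y) := by
              have : Z * (eps * l) * (500 / eps * Y) = (Z * Y) * 500 * l * (eps / eps) := by ring
              rw [this, hYi, div_self he.ne']
              ring
          _ ≤ Z * (eps * l) * J := mul_le_mul_of_nonneg_left hJ2 (by positivity)
      linarith

end Pool.Agent.DEN68
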