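import Pool.Agent.DEN68.Stmts
import Pool.Agent.BR.LemS

/-!
# DEN: good classes (module CLS)

From the good number of samples (`St_WIN`) and the joint law (`St_JNT`): Markov's inequality,
conditioning on the good event (`St_Cond`), splitting off the diagonal (`St_Diag`).
-/

set_option autoImplicit false

namespace Pool.Agent.DEN68

open Finset Real Pool.Agent.BR
open scoped Classical

section cls

variable {G : Type} [AddCommGroup G] [Fintype G]

omit [Fintype G] in
theorem CLS_nonneg (A : Finset G) (x : G) : 0 ≤ sA A x := by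
  unfold sA
  positivity

omit [Fintype G] in
theorem CLS_le_one (A : Finset G) (x : G) : sA A x ≤ 1 := by
  unfold sA
  refine div_le_one_of_le₀ ?_ (Nat.cast_nonneg _)
  exact_mod_cast card_le_card (filter_subset _ _)

omit [Fintype G] in
theorem CLS_one (A : Finset G) {x : G} (hx : x ∈ A) : sA A x = 1 := by
  unfold sA
  have h1 : (A.filter fun y => ∃ a ∈ A, ∃ b ∈ A, x + y = a + b) = A := by
    refine filter_true_of_mem fun y hy => ⟨x, hx, y, hy, rfl⟩
  rw [h1]
  have h2 : (0 : ℝ) < A.card := by exact_mod_cast card_pos.2 ⟨x, hx⟩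
  exact div_self h2.ne'

theorem CLS_sum_pos (A : Finset G) (hA : A.Nonempty) (N : ℕ) : 0 < ∑ x, sA A x ^ N := by
  obtain ⟨x, hx⟩ := hA
  have h1 : sA A x ^ N ≤ ∑ x, sA A x ^ N :=
    single_le_sum (f := fun x => sA A x ^ N) (fun i _ => pow_nonneg (CLS_nonneg A i) N)
      (mem_univ x)
  rw [CLS_one A hx, one_pow] at h1
  linarith

theorem CLS_mem (A : Finset G) {N : ℕ} (c : Fin N → G) (t x : G) :
    x ∈ Sy A (fun i => c i + t) ↔ x + t ∈ Sy A c := by
  unfold Sy
  rw [mem_filter, mem_filter]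
  have h1 : ∀ i, x + (c i + t) = x + t + c i := by
    intro i
    rw [add_comm (c i) t, add_assoc]
  simp only [mem_univ, true_and, h1]

theorem CLS_card (h2 : ∀ x : G, x + x = 0) (A : Finset G) {N : ℕ} (c : Fin N → G) (t : G) :
    (Sy A (fun i => c i + t)).card = (Sy A c).card := by
  have h1 : Sy A (fun i => c i + t) = (Sy A c).image (fun x => x + t) := by
    ext x
    rw [CLS_mem, mem_image]
    constructor
    · intro h
      exact ⟨x + t, h, add_add_self h2 x t⟩
    · rintro ⟨y, hy, rfl⟩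
      rw [add_add_self h2]
      exact hy
  rw [h1]
  exact card_image_of_injective _ (add_left_injective t)

theorem CLS_un (h2 : ∀ x : G, x + x = 0) (A : Finset G) {N : ℕ} (c : Fin N → G) (t : G) :
    un (Sy A (fun i => c i + t)) = sh t (un (Sy A c)) := by
  funext x
  unfold sh un
  simp only [CLS_mem, CLS_card h2]

theorem CLS_KL (h2 : ∀ x : G, x + x = 0) (t : G) (p q : G → ℝ) :
    KL (sh t p) q = KL p (sh t q) := by
  unfold KL sh
  rw [← sum_shift t (fun x => p x * log (p x / q (x + t)))]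
  refine sum_congr rfl fun x _ => ?_
  rw [add_add_self h2]

omit [AddCommGroup G] in
theorem CLS_law (T : Finset G) (hT : T.Nonempty) : IsLaw (un T) := by
  refine ⟨fun x => ?_, ?_⟩
  · unfold un
    split_ifs
    · positivity
    · exact le_rfl
  · unfold un
    rw [← sum_filter, filter_mem_eq_inter, univ_inter, sum_const, nsmul_eq_mul]
    have h2 : (0 : ℝ) < T.card := by exact_mod_cast card_pos.2 hT
    field_simp

omit [AddCommGroup G] in
/-- relative entropies with respect to positive laws are nonnegative -/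
theorem CLS_KL_nonneg {p q : G → ℝ} (hp : IsLaw p) (hq : IsLaw q) (hq0 : ∀ x, 0 < q x) :
    0 ≤ KL p q := by
  have h := gibbs univ p q (fun i _ => hp.nn i) (fun i _ => hq.nn i)
    (fun i _ h => absurd h (hq0 i).ne') (by rw [hp.sum, hq.sum])
  unfold KL
  have h1 : ∀ x, p x * log (p x / q x) = p x * log (p x) - p x * log (q x) := by
    intro x
    rcases eq_or_ne (p x) 0 with h0 | h0
    · rw [h0]
      ring
    · rw [log_div h0 (hq0 x).ne']
      ring
  simp only [h1]
  rw [sum_sub_distrib]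
  linarith

theorem CLS_log_card (T : Finset G) : 0 ≤ log (Fintype.card G) - log T.card := by
  rcases T.eq_empty_or_nonempty with rfl | hT
  · simp only [card_empty, Nat.cast_zero, log_zero, sub_zero]
    exact log_card_nonneg
  · have h2 : (0 : ℝ) < T.card := by exact_mod_cast card_pos.2 hT
    have h3 : (T.card : ℝ) ≤ Fintype.card G := by exact_mod_cast T.card_le_univ
    have := log_le_log h2 h3
    linarith

end cls

/-- Markov's inequality for two nonnegative functions. -/
theorem CLS_markov {Ω : Type} [Fintype Ω] (R f g : Ω → ℝ) (u v : ℝ) (E : Set Ω) (hR : IsLaw R)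
    (hE : ∀ y, R y ≠ 0 → f y ≤ u → g y ≤ v → y ∈ E)
    (hf : ∀ y, R y ≠ 0 → 0 ≤ f y) (hg : ∀ y, R y ≠ 0 → 0 ≤ g y) (hu : 0 < u) (hv : 0 < v)
    (h1 : ∑ y, R y * f y ≤ u / 4) (h2 : ∑ y, R y * g y ≤ v / 4) :
    1 / 2 ≤ ∑ y, (if y ∈ E then R y else 0) := by
  have key : ∀ y, R y - (if y ∈ E then R y else 0) ≤ R y * f y / u + R y * g y / v := by
    intro y
    by_cases h0 : R y = 0
    · rw [h0]
      simp
    have hr : 0 ≤ R y := hR.nn y
    have hf0 : 0 ≤ R y * f y / u := div_nonneg (mul_nonneg hr (hf y h0)) hu.le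
    have hg0 : 0 ≤ R y * g y / v := div_nonneg (mul_nonneg hr (hg y h0)) hv.le
    split_ifs with hy
    · linarith
    · rw [sub_zero]
      by_cases hfu : f y ≤ u
      · have hgv : v < g y := by
          by_contra hc
          exact hy (hE y h0 hfu (not_lt.1 hc))
        have h3 : R y ≤ R y * g y / v := by
          rw [le_div_iff₀ hv]
          exact mul_le_mul_of_nonneg_left hgv.le hr
        linarith
      · have h3 : R y ≤ R y * f y / u := by
          rw [le_div_iff₀ hu]
          exact mul_le_mul_of_nonneg_left (not_le.1 hfu).le hr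
        linarith
  have h3 := sum_le_sum fun y (_ : y ∈ (univ : Finset Ω)) => key y
  rw [sum_sub_distrib, sum_add_distrib, ← sum_div, ← sum_div, hR.sum] at h3
  have h4 : (∑ y, R y * f y) / u ≤ 1 / 4 := by
    rw [div_le_iff₀ hu]
    linarith
  have h5 : (∑ y, R y * g y) / v ≤ 1 / 4 := by
    rw [div_le_iff₀ hv]
    linarith
  linarith

theorem thm_CLS (h1 : St_WIN) (h2 : St_JNT) (h3 : Pool.Agent.BR.St_Cond)
    (h4 : Pool.Agent.BR.St_Diag) : St_CLS := by
  intro G _ _ hG A l J hA hl hJ hAl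
  have hJ0 : (0 : ℝ) < J := by exact_mod_cast hJ
  have hAc : (0 : ℝ) < A.card := by exact_mod_cast card_pos.2 hA
  have hGc : (0 : ℝ) < Fintype.card G := BR.card_pos
  have hone : (Fintype.card G : ℝ) * exp (-l) ≤
      ((univ.filter fun x => sA A x = 1).card : ℝ) := by
    have h5 : (Fintype.card G : ℝ) * exp (-l) ≤ A.card := by
      rw [← exp_log hGc, ← exp_add]
      calc exp (log (Fintype.card G) + -l) ≤ exp (log A.card) := by
            apply exp_le_exp.2
            linarith
        _ = A.card := exp_log hAc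
    refine h5.trans ?_
    have h6 : A ⊆ univ.filter fun x => sA A x = 1 := fun x hx =>
      mem_filter.2 ⟨mem_univ x, CLS_one A hx⟩
    exact_mod_cast card_le_card h6
  obtain ⟨N, hN1, hN2, hN3⟩ := h1 G (sA A) l J (CLS_nonneg A) (CLS_le_one A) hJ hone
  have hM := CLS_sum_pos A hA N
  have hth : 0 < 2 * l / J := by positivity
  obtain ⟨R, ps, hR, hps, hps0, hne, hK, hD, hE⟩ :=
    h2 G hG A N l (2 * l / J) hA hN1 hth hAl
  have hK2 : ∑ y, R y * KL (un (Sy A y)) ps ≤ 16 * l / J / 4 := by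
    have h5 : (∑ y, R y * KL (un (Sy A y)) ps) * ∑ x, sA A x ^ N ≤
        (16 * l / J / 4) * ∑ x, sA A x ^ N := by
      have h6 : 16 * l / (J : ℝ) / 4 = 2 * l / J + 2 * l / J := by ring
      rw [h6, add_mul]
      linarith
    exact le_of_mul_le_mul_right h5 hM
  have hD2 : ∑ y, R y * (log (Fintype.card G) - log (Sy A y).card) ≤ 4 * l / 4 := by
    linarith
  obtain ⟨E, hEdef⟩ : ∃ E : Set (Fin N → G), ∀ y, y ∈ E ↔ (R y ≠ 0 ∧
      KL (un (Sy A y)) ps ≤ 16 * l / J ∧ log (Fintype.card G) - log (Sy A y).card ≤ 4 * l) :=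
    ⟨{y | R y ≠ 0 ∧ KL (un (Sy A y)) ps ≤ 16 * l / J ∧
      log (Fintype.card G) - log (Sy A y).card ≤ 4 * l}, fun y => Iff.rfl⟩
  have hhalf := CLS_markov R (fun y => KL (un (Sy A y)) ps)
    (fun y => log (Fintype.card G) - log (Sy A y).card) (16 * l / J) (4 * l) E hR
    (fun y k1 k2 k3 => (hEdef y).2 ⟨k1, k2, k3⟩)
    (fun y hy => CLS_KL_nonneg (CLS_law _ (hne y hy)) hps hps0)
    (fun y _ => CLS_log_card _) (by positivity) (by positivity) hK2 hD2
  obtain ⟨Q, hQ, hQE, hQd⟩ := h3 (Fin N → G) R E hR hhalf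
  obtain ⟨c, B, hB, hBQ, hBD⟩ := h4 G hG N Q hN1 hQ
  have hgood : ∀ t, B t ≠ 0 → (Sy A c).Nonempty ∧ KL (un (Sy A c)) (sh t ps) ≤ 16 * l / J ∧
      log (Fintype.card G) - log (Sy A c).card ≤ 4 * l := by
    intro t ht
    obtain ⟨h5, h6, h7⟩ := (hEdef _).1 (hQE _ (hBQ t ht))
    refine ⟨?_, ?_, ?_⟩
    · obtain ⟨x, hx⟩ := hne _ h5
      exact ⟨x + t, (CLS_mem A c t x).1 hx⟩
    · rw [← CLS_KL hG, ← CLS_un hG]
      exact h6
    · rw [CLS_card hG] at h7
      exact h7
  obtain ⟨t0, ht0⟩ : ∃ t, B t ≠ 0 := by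
    by_contra hc
    push Not at hc
    have h5 := hB.sum
    simp only [hc, sum_const_zero] at h5
    exact zero_ne_one h5
  refine ⟨B, ps, Sy A c, hB, hps, hps0, (hgood t0 ht0).1, ?_, ?_, (hgood t0 ht0).2.2,
    fun t ht => (hgood t ht).2.1⟩
  · intro u hu v hv
    have i0 : Fin N := ⟨0, hN1⟩
    obtain ⟨a, ha, b, hb, hab⟩ := (mem_filter.1 hu).2 i0
    obtain ⟨a', ha', b', hb', hab'⟩ := (mem_filter.1 hv).2 i0
    refine ⟨a, ha, b, hb, a', ha', b', hb', ?_⟩
    calc u + v = u + v + (c i0 + c i0) := by rw [hG, add_zero]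
      _ = (u + c i0) + (v + c i0) := by abel
      _ = a + b + (a' + b') := by rw [hab, hab']
      _ = a + b + a' + b' := by abel
  · have hN : (N : ℝ) ≤ 2 ^ J := by exact_mod_cast hN2
    have h5 : ((N : ℝ) + 1) * l ≤ (2 ^ J + 1) * l :=
      mul_le_mul_of_nonneg_right (by linarith) hl.le
    have h6 : (2 : ℝ) * (2 ^ J + 1) * l = 2 * ((2 ^ J + 1) * l) := by ring
    rw [h6]
    linarith

end Pool.Agent.DEN68
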