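import Pool.Agent.BR.St

/-!
# DEN: linear codimension, density `α^ε` (MP_68cffc_co). Statements of the modules

Paper: team store `DEN_68cffc.md` (helper68) on top of `BR_paper.md`; the library is
`Pool.Agent.BR` (laws, entropies, `Spread`, `Ib`, `Df`, `KL`, `sh`, `fw`, `DW`). `G` is a finite
abelian group with `x + x = 0`, logarithms are natural.
-/

set_option autoImplicit false

namespace Pool.Agent.DEN68

open Finset Real Pool.Agent.BR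
open scoped Classical

section defs

variable {G : Type} [AddCommGroup G] [Fintype G]

/-- the probability that `x + y ∈ A + A`, `y` uniform on `A` -/
noncomputable def sA (A : Finset G) (x : G) : ℝ :=
  ((A.filter fun y => ∃ a ∈ A, ∃ b ∈ A, x + y = a + b).card : ℝ) / (A.card : ℝ)

/-- the points `x` with `x + y i ∈ A + A` for all `i` -/
noncomputable def Sy (A : Finset G) {N : ℕ} (y : Fin N → G) : Finset G :=
  univ.filter fun x => ∀ i, ∃ a ∈ A, ∃ b ∈ A, x + y i = a + b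

/-- the uniform law on `T` -/
noncomputable def un (T : Finset G) (x : G) : ℝ := if x ∈ T then 1 / (T.card : ℝ) else 0

end defs

/-- LSD: the linear strong data processing inequality. Proof: exactly `thm_ThmB` (its last 40
lines): let `L = log |G| ≥ 1`, `be = 1/5` if `log L ≤ 5`, else `be = 1 / log L`; then
`L ^ be ≤ exp 1`, so `thmB_Q` gives `Q ≥ 1 / (3 exp 1) ≥ 1/9` with `thmB_Hyp be e Q B`; in
`thmB_Phi` use the FIRST
branch `thmB_F be a s = a ^ (1 + be - 400) * s ^ 400 = a ^ be * (s / a) ^ 400 * a` and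
`a ^ be ≥ 1` (as `a = Df p ≥ 1`); `e → 0`. The hypotheses of `thmB_Q` are as in
`Pool/Agent/BR/Main.lean` (`thm_PairT thm_LemT`, `thm_ThmA hPT thm_DZero thm_Coset`, `thm_Tan`,
`thm_Num`); import these files. -/
def St_LSD : Prop := ∀ (G : Type) [AddCommGroup G] [Fintype G], (∀ x : G, x + x = 0) →
  ∀ B p : G → ℝ, IsLaw B → Spread B → IsLaw p → 1 ≤ Df p →
  (Df (conv p p) / Df p) ^ 400 * Df p ≤ 9 * Ib B p

/-- WIN: a good number of samples. With `M N = ∑ s ^ N`, `F N = log |Ω| - log (M N)`: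
`F 1 ≥ 0`, `F (2^J) ≤ l`, so some `j < J` has `F (2^(j+1)) - F (2^j) ≤ l / J`; put `m = 2^j`,
`N = 2 m`. Jensen (concavity of `log`, weights `s ^ N / M N` on `s > 0`):
`F N - F m = log (M m / M N) ≥ log (∑ (s^N / M N) * s^(-m)) ≥ m * ∑ (s^N / M N) * (- log s)`.
(`Real.log 0 = 0`; the terms with `s x = 0` vanish.) -/
def St_WIN : Prop := ∀ (Ω : Type) [Fintype Ω] (s : Ω → ℝ) (l : ℝ) (J : ℕ),
  (∀ x, 0 ≤ s x) → (∀ x, s x ≤ 1) → 1 ≤ J →
  (Fintype.card Ω : ℝ) * exp (-l) ≤ ((univ.filter fun x => s x = 1).card : ℝ) →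
  ∃ N : ℕ, 1 ≤ N ∧ N ≤ 2 ^ J ∧
    (N : ℝ) * ∑ x, s x ^ N * (-log (s x)) ≤ 2 * l / J * ∑ x, s x ^ N

/-- JNT: the joint law. `Gam` = the pairs `(x, y)` with `y i ∈ A` and `x + y i ∈ A + A` for all
`i`; `|Gam| = ∑_x (|A| sA x)^N = |A|^N * M`, `M = ∑ sA x ^ N > 0`; `R y = |Sy A y| / |Gam|` for
`y ∈ A^N` (and `0` otherwise) is the law of `y`, `ph x = sA x ^ N / M` that of `x`. By the convexity
of `t log t` (or `R` against the uniform law of `A^N`): `E_R log |Sy| ≥ log M`. Then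
`E_R KL (un Sy) ph = - E_R log |Sy| - ∑ ph log ph = - E_R log |Sy| + log M + N ∑ ph (-log sA)
≤ N ∑ ph (-log sA)`; `E_R (log |G| - log |Sy|) ≤ log |G| - log M ≤ l` (`sA = 1` on `A`);
`ent R = - E_R log |Sy| + N log |A| + log M`, `|Sy| ≤ |G|`.
`ps = e^(-th) ph + (1 - e^(-th)) / |G|` is positive and `≥ e^(-th) ph`. -/
def St_JNT : Prop := ∀ (G : Type) [AddCommGroup G] [Fintype G], (∀ x : G, x + x = 0) →
  ∀ (A : Finset G) (N : ℕ) (l th : ℝ), A.Nonempty → 1 ≤ N → 0 < th →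
  log (Fintype.card G) - log A.card ≤ l →
  ∃ (R : (Fin N → G) → ℝ) (ps : G → ℝ), IsLaw R ∧ IsLaw ps ∧ (∀ x, 0 < ps x) ∧
    (∀ y, R y ≠ 0 → (Sy A y).Nonempty) ∧
    (∑ y, R y * KL (un (Sy A y)) ps) * ∑ x, sA A x ^ N ≤
      (N : ℝ) * ∑ x, sA A x ^ N * (-log (sA A x)) + th * ∑ x, sA A x ^ N ∧
    ∑ y, R y * (log (Fintype.card G) - log (Sy A y).card) ≤ l ∧
    log (Fintype.card (Fin N → G)) - ent R ≤ (N + 1) * l

/-- CLS: good classes. `St_WIN` for `sA A` (`sA = 1` on `A`, so `|G| e^(-l) ≤ |A|`), `St_JNT` with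
`th = 2 l / J`: the average of `KL` is `≤ 4 l / J`. Good `y`: `R y ≠ 0`, `KL ≤ 16 l / J`,
`log |G| - log |Sy| ≤ 4 l`; probability `≥ 1/2` (Markov; `KL ≥ 0` by `LemS_KL`). `St_Cond`,
`St_Diag` give `c`, `B`; `T = Sy A c`; `Sy A (fun i => c i + t)` is the translate of `T`, i.e.
`un (Sy A (c + t)) = sh t (un T)`; `u + v = (u + c 0) + (v + c 0)`. -/
def St_CLS : Prop := ∀ (G : Type) [AddCommGroup G] [Fintype G], (∀ x : G, x + x = 0) →
  ∀ (A : Finset G) (l : ℝ) (J : ℕ), A.Nonempty → 0 < l → 1 ≤ J →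
  log (Fintype.card G) - log A.card ≤ l →
  ∃ (B ps : G → ℝ) (T : Finset G), IsLaw B ∧ IsLaw ps ∧ (∀ x, 0 < ps x) ∧ T.Nonempty ∧
    (∀ u ∈ T, ∀ v ∈ T, ∃ a ∈ A, ∃ b ∈ A, ∃ c ∈ A, ∃ d ∈ A, u + v = a + b + c + d) ∧
    Df B ≤ 2 * (2 ^ J + 1) * l + 2 * log 2 ∧
    log (Fintype.card G) - log T.card ≤ 4 * l ∧
    ∀ t, B t ≠ 0 → KL (un T) (sh t ps) ≤ 16 * l / J

/-- FBC: a fibre. `St_Core` for `B` gives `W`, `b`; `B' = fw W B b`; `St_Inv` (with `ph = un T`,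
`e = 16 l / J`; `B' w ≠ 0` implies `B (b + w) ≠ 0`) gives `∑ x, un T x * Ib B' (fw W (un T) x) ≤
16 l / J`; `DW W (un T) ≤ Df (un T) ≤ 4 l` (`St_DW`, or `DW_mono` with `⊤`). Choose `x` with
`un T x ≠ 0`, `Ib ≤ 48 l / J`, `Df ≤ 12 l` (otherwise `∑ un T x (Ib J / (48 l) + Df / (12 l)) ≥ 1`,
but it is `≤ 2/3`); `p = fw W (un T) x`; `p w ≠ 0` iff `x + w ∈ T`. -/
def St_FBC : Prop := ∀ (G : Type) [AddCommGroup G] [Fintype G], (∀ x : G, x + x = 0) →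
  ∀ (A : Finset G) (l : ℝ) (J : ℕ), A.Nonempty → 0 < l → 1 ≤ J →
  log (Fintype.card G) - log A.card ≤ l →
  ∃ (W : AddSubgroup G) (B p : W → ℝ), IsLaw B ∧ Spread B ∧ IsLaw p ∧
    cod W ≤ 4 * (2 * (2 ^ J + 1) * l + 2 * log 2) ∧ Ib B p ≤ 48 * l / J ∧ Df p ≤ 12 * l ∧
    ∀ u v : W, p u ≠ 0 → p v ≠ 0 →
      ∃ a ∈ A, ∃ b ∈ A, ∃ c ∈ A, ∃ d ∈ A, (u : G) + v = a + b + c + d

/-- DNG: the theorem for groups. `J = ⌈(500 / eps) * (12 / eps)^400⌉`, `St_FBC`. If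
`Df (conv p p) ≤ eps l`: `ent (conv p p) ≤ log` of the size of its support (`ent` of a law
supported in a set `V`), and the support lies in `4A`. Otherwise `Df p ≥ Df (conv p p) > eps l ≥ 1`
(`Df_conv_le`), `Df (conv p p) / Df p ≥ eps / 12` and `St_LSD` on `W` gives
`(eps / 12)^400 * (eps l) ≤ 9 * 48 l / J`, a contradiction. `log 2 ≤ eps l`. -/
def St_DNG : Prop := ∀ eps : ℝ, 0 < eps → eps ≤ 1 → ∃ C : ℝ, 0 < C ∧
  ∀ (G : Type) [AddCommGroup G] [Fintype G], (∀ x : G, x + x = 0) →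
  ∀ (A : Finset G) (l : ℝ), A.Nonempty → log (Fintype.card G) - log A.card ≤ l → 1 ≤ eps * l →
  ∃ W : AddSubgroup G, cod W ≤ C * l ∧
    exp (-(eps * l)) * (Nat.card W : ℝ) ≤
      ((univ.filter fun w : W => ∃ a ∈ A, ∃ b ∈ A, ∃ c ∈ A, ∃ d ∈ A,
        (w : G) = a + b + c + d).card : ℝ)

/-- DNF: the final statement. `l = log (1 / al)`; if `1 ≤ eps l` this is `St_DNG` (with
`min eps 1`) for `G = Fin n → ZMod 2` and the submodule of `W` (see `thm_Final`, `fin_four` in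
`Pool/Agent/BR/Fin.lean` for the passage from `AddSubgroup` and `cod` to `Submodule` and
`finrank`; characteristic two turns `a + b + c + d` into `a + b - c - d`). If `eps l < 1`:
`St_Final` with `eps := 1` gives a whole subspace of codimension
`≤ C log (2 / al)^3 ≤ C (1/eps + log 2)^3`, and `l ≥ log 2`. -/
def St_DNF : Prop := ∀ eps : ℝ, 0 < eps → ∃ C : ℝ, 0 < C ∧
  ∀ (n : ℕ) (A : Finset (Fin n → ZMod 2)) (al : ℝ), 0 < al → al ≤ 1 / 2 →
  al * 2 ^ n ≤ (A.card : ℝ) →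
  ∃ V : Submodule (ZMod 2) (Fin n → ZMod 2),
    (n : ℝ) - Module.finrank (ZMod 2) V ≤ C * log (1 / al) ∧
    al ^ eps * (Nat.card V : ℝ) ≤
      (Nat.card {v : Fin n → ZMod 2 // v ∈ V ∧ ∃ a ∈ A, ∃ b ∈ A, ∃ c ∈ A, ∃ d ∈ A,
        v = a + b - c - d} : ℝ)

end Pool.Agent.DEN68
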