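import Pool.Agent.DEN68.Stmts

/-!
# DEN, module DNF (helper96): the final statement
-/

set_option autoImplicit false

namespace Pool.Agent.DEN68

open Finset Real Pool.Agent.BR
open scoped Classical

private theorem dnf_cardG (n : ℕ) : (Fintype.card (Fin n → ZMod 2) : ℝ) = 2 ^ n := by
  rw [Fintype.card_fun, ZMod.card, Fintype.card_fin]
  push_cast
  ring

private theorem dnf_cod (n : ℕ) (W : AddSubgroup (Fin n → ZMod 2)) :
    cod W = (n - Module.finrank (ZMod 2) (AddSubgroup.toZModSubmodule 2 W)) * log 2 := by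
  have hc : (Nat.card W : ℝ) = 2 ^ Module.finrank (ZMod 2) (AddSubgroup.toZModSubmodule 2 W) := by
    have h1 := Module.natCard_eq_pow_finrank (K := ZMod 2) (V := AddSubgroup.toZModSubmodule 2 W)
    rw [Nat.card_zmod] at h1
    have h2 : Nat.card W = Nat.card (AddSubgroup.toZModSubmodule 2 W) := rfl
    rw [h2, h1]
    push_cast
    ring
  unfold cod
  rw [hc, dnf_cardG, log_pow, log_pow]
  ring

private theorem dnf_sub (n : ℕ) (x y : Fin n → ZMod 2) : x + y = x - y := by
  funext i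
  have h : y i + y i = 0 := CharTwo.add_self_eq_zero (y i)
  show x i + y i = x i - y i
  rw [eq_sub_iff_add_eq, add_assoc, h, add_zero]

private theorem dnf_gen {G : Type} [AddCommGroup G] [Fintype G] (A : Finset G)
    (W : AddSubgroup G) (t : ℝ)
    (h : t * (Nat.card W : ℝ) ≤ ((univ.filter fun w : W => ∃ a ∈ A, ∃ b ∈ A, ∃ c ∈ A, ∃ d ∈ A,
        (w : G) = a + b + c + d).card : ℝ)) :
    t * (Nat.card W : ℝ) ≤ (Nat.card {v : G // v ∈ W ∧ ∃ a ∈ A, ∃ b ∈ A, ∃ c ∈ A, ∃ d ∈ A,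
        v = a + b + c + d} : ℝ) := by
  refine h.trans ?_
  rw [Nat.cast_le, ← Fintype.card_coe, ← Nat.card_eq_fintype_card]
  refine Nat.card_le_card_of_injective (fun w => ⟨w.1.1, w.1.2, (mem_filter.1 w.2).2⟩) ?_
  intro w w' h
  have h1 := congrArg (fun v => v.1) h
  exact Subtype.ext (Subtype.ext h1)

private theorem dnf_count (n : ℕ) (A : Finset (Fin n → ZMod 2))
    (W : AddSubgroup (Fin n → ZMod 2)) :
    Nat.card {v : Fin n → ZMod 2 // v ∈ W ∧
        ∃ a ∈ A, ∃ b ∈ A, ∃ c ∈ A, ∃ d ∈ A, v = a + b + c + d} =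
      Nat.card {v : Fin n → ZMod 2 // v ∈ AddSubgroup.toZModSubmodule 2 W ∧
        ∃ a ∈ A, ∃ b ∈ A, ∃ c ∈ A, ∃ d ∈ A, v = a + b - c - d} := by
  refine Nat.card_congr (Equiv.subtypeEquivRight fun v => ?_)
  have h : ∀ a b c d : Fin n → ZMod 2, a + b + c + d = a + b - c - d := by
    intro a b c d
    rw [dnf_sub n (a + b + c) d, dnf_sub n (a + b) c]
  have h' : v ∈ AddSubgroup.toZModSubmodule 2 W ↔ v ∈ W := Iff.rfl
  rw [h']
  simp only [h]

/-- **DNF.** -/
theorem thm_DNF (h1 : St_DNG) (h2 : Pool.Agent.BR.St_Final) : St_DNF := by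
  intro eps heps
  obtain ⟨e1, he1⟩ : ∃ e1 : ℝ, e1 = min eps 1 := ⟨_, rfl⟩
  have he10 : 0 < e1 := by rw [he1]; exact lt_min heps one_pos
  have he11 : e1 ≤ 1 := by rw [he1]; exact min_le_right _ _
  have he12 : e1 ≤ eps := by rw [he1]; exact min_le_left _ _
  obtain ⟨C1, hC1, hD⟩ := h1 e1 he10 he11
  obtain ⟨C2, hC2, hF⟩ := h2 1 one_pos
  have hlog2 : (0 : ℝ) < log 2 := log_pos one_lt_two
  have hE : (0 : ℝ) < log 2 + 1 / e1 := by positivity
  refine ⟨C1 / log 2 + C2 * (log 2 + 1 / e1) ^ (2 + (1 : ℝ)) / (log 2 * log 2),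
    by positivity, ?_⟩
  intro n A al hal hal2 hA
  obtain ⟨l, hl⟩ : ∃ l : ℝ, l = log (1 / al) := ⟨_, rfl⟩
  have hl2 : log 2 ≤ l := by
    rw [hl]
    refine log_le_log (by norm_num) ?_
    rw [le_div_iff₀ hal]
    linarith
  have hl0 : 0 < l := by linarith
  have hlal : log al = -l := by
    rw [hl, one_div, log_inv, neg_neg]
  have h2n : (0 : ℝ) < 2 ^ n := by positivity
  have hA0 : (0 : ℝ) < A.card := lt_of_lt_of_le (by positivity) hA
  have hpow : al ^ eps ≤ exp (-(e1 * l)) := by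
    rw [rpow_def_of_pos hal, hlal]
    refine exp_le_exp.2 ?_
    have := mul_le_mul_of_nonneg_right he12 hl0.le
    linarith
  rw [← hl]
  rcases le_or_gt 1 (e1 * l) with h | h
  · have hAne : A.Nonempty := by
      rw [← Finset.card_pos]
      exact_mod_cast hA0
    obtain ⟨W, hW1, hW2⟩ := hD (Fin n → ZMod 2) (fun x => by
      funext i
      exact CharTwo.add_self_eq_zero (x i)) A l hAne (by
      rw [dnf_cardG, ← log_div h2n.ne' hA0.ne', hl]
      refine log_le_log (by positivity) ?_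
      rw [div_le_div_iff₀ hA0 hal, one_mul]
      linarith) h
    refine ⟨AddSubgroup.toZModSubmodule 2 W, ?_, ?_⟩
    · rw [dnf_cod] at hW1
      have h3 : (n : ℝ) - Module.finrank (ZMod 2) (AddSubgroup.toZModSubmodule 2 W) ≤
          C1 / log 2 * l := by
        rw [div_mul_eq_mul_div, le_div_iff₀ hlog2]
        exact hW1
      refine h3.trans (mul_le_mul_of_nonneg_right ?_ hl0.le)
      have : 0 ≤ C2 * (log 2 + 1 / e1) ^ (2 + (1 : ℝ)) / (log 2 * log 2) := by positivity
      linarith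
    · have h4 : Nat.card (AddSubgroup.toZModSubmodule 2 W) = Nat.card W := rfl
      rw [h4]
      have h5 := dnf_gen A W _ hW2
      rw [dnf_count n A W] at h5
      refine le_trans ?_ h5
      exact mul_le_mul_of_nonneg_right hpow (Nat.cast_nonneg (Nat.card W))
  · obtain ⟨V, hV1, hV2⟩ := hF n A al hal (by linarith) hA
    refine ⟨V, ?_, ?_⟩
    · refine hV2.trans ?_
      have h3 : log (2 / al) = log 2 + l := by
        rw [hl, ← log_mul (by norm_num) (by positivity)]
        congr 1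
        ring
      have h4 : l ≤ 1 / e1 := by
        rw [le_div_iff₀ he10]
        linarith
      have h5 : log (2 / al) ^ (2 + (1 : ℝ)) ≤ (log 2 + 1 / e1) ^ (2 + (1 : ℝ)) := by
        rw [h3]
        exact rpow_le_rpow (by linarith) (by linarith) (by norm_num)
      have h6 : C2 * log (2 / al) ^ (2 + (1 : ℝ)) ≤ C2 * (log 2 + 1 / e1) ^ (2 + (1 : ℝ)) :=
        mul_le_mul_of_nonneg_left h5 hC2.le
      have h7 : C2 * (log 2 + 1 / e1) ^ (2 + (1 : ℝ)) ≤
          C2 * (log 2 + 1 / e1) ^ (2 + (1 : ℝ)) / (log 2 * log 2) * l := by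
        have h8 : (0 : ℝ) ≤ C2 * (log 2 + 1 / e1) ^ (2 + (1 : ℝ)) := by positivity
        have h9 : log 2 * log 2 ≤ l := by
          have h10 : log 2 ≤ 1 := by
            have := Real.log_two_lt_d9
            linarith
          nlinarith
        rw [div_mul_eq_mul_div, le_div_iff₀ (by positivity)]
        exact mul_le_mul_of_nonneg_left h9 h8
      refine h6.trans (h7.trans (mul_le_mul_of_nonneg_right ?_ hl0.le))
      have : 0 ≤ C1 / log 2 := by positivity
      linarith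
    · have h3 : Nat.card {v : Fin n → ZMod 2 // v ∈ V ∧
          ∃ a ∈ A, ∃ b ∈ A, ∃ c ∈ A, ∃ d ∈ A, v = a + b - c - d} = Nat.card V :=
        Nat.card_congr ⟨fun v => ⟨v.1, v.2.1⟩, fun v => ⟨v.1, v.2, hV1 v.1 v.2⟩,
          fun _ => rfl, fun _ => rfl⟩
      rw [h3]
      have h4 : al ^ eps ≤ 1 := rpow_le_one hal.le (by linarith) heps.le
      have h5 : (0 : ℝ) ≤ (Nat.card V : ℝ) := Nat.cast_nonneg _
      calc al ^ eps * (Nat.card V : ℝ) ≤ 1 * (Nat.card V : ℝ) :=
            mul_le_mul_of_nonneg_right h4 h5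
        _ = (Nat.card V : ℝ) := one_mul _

end Pool.Agent.DEN68
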