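import Pool.Agent.DEN68.Stmts
import Pool.Agent.BR.Core
import Pool.Agent.BR.DW

/-!
# DEN, module FBC (helper25): a fibre
-/

set_option autoImplicit false

namespace Pool.Agent.DEN68

open Finset Real Pool.Agent.BR
open scoped Classical

section

variable {G : Type} [AddCommGroup G] [Fintype G]

private theorem un_law {T : Finset G} (hT : T.Nonempty) : IsLaw (un T) := by
  have h0 : (0 : ℝ) < (T.card : ℝ) := by exact_mod_cast Finset.card_pos.2 hT
  refine ⟨fun x => ?_, ?_⟩
  · unfold un
    split_ifs
    · positivity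
    · exact le_rfl
  · unfold un
    rw [Finset.sum_ite_mem, Finset.univ_inter, Finset.sum_const, nsmul_eq_mul, mul_one_div,
      div_self h0.ne']

private theorem un_ent {T : Finset G} (hT : T.Nonempty) : ent (un T) = log (T.card : ℝ) := by
  have h0 : (0 : ℝ) < (T.card : ℝ) := by exact_mod_cast Finset.card_pos.2 hT
  unfold ent un
  have h1 : ∀ x : G, negMulLog (if x ∈ T then 1 / (T.card : ℝ) else 0) =
      if x ∈ T then negMulLog (1 / (T.card : ℝ)) else 0 := by
    intro x
    split_ifs
    · rfl
    · exact negMulLog_zero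
  simp only [h1]
  rw [Finset.sum_ite_mem, Finset.univ_inter, Finset.sum_const, nsmul_eq_mul]
  unfold negMulLog
  rw [log_div one_ne_zero h0.ne', log_one]
  field_simp
  ring

private theorem un_ne {T : Finset G} {x : G} (h : un T x ≠ 0) : x ∈ T := by
  unfold un at h
  by_contra hx
  rw [if_neg hx] at h
  exact h rfl

private theorem DW_le_Df (W : AddSubgroup G) {p : G → ℝ} (hp : IsLaw p) : DW W p ≤ Df p := by
  rw [DW_chain W hp]
  have h1 : entq W p ≤ log (Fintype.card (G ⧸ W)) := H_le_log hp _
  have h2 : (Fintype.card G : ℝ) = Fintype.card (G ⧸ W) * Nat.card W := by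
    have h3 := AddSubgroup.card_eq_card_quotient_mul_card_addSubgroup W
    rw [Nat.card_eq_fintype_card, Nat.card_eq_fintype_card (α := G ⧸ W)] at h3
    exact_mod_cast h3
  have h3 : (0 : ℝ) < Fintype.card (G ⧸ W) := card_pos
  have h4 : log (Fintype.card G : ℝ) = log (Fintype.card (G ⧸ W)) + log (Nat.card W) := by
    rw [h2, log_mul h3.ne' (DW_card W).ne']
  unfold Df
  linarith

end

/-- **FBC.** -/
theorem thm_FBC (h1 : St_CLS) (h2 : Pool.Agent.BR.St_Core) (h3 : Pool.Agent.BR.St_Inv)
    (h4 : Pool.Agent.BR.St_DW) : St_FBC := by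
  intro G _ _ hG A l J hA hl hJ hlog
  obtain ⟨B0, ps, T, hB0, hps, hpos, hT, hsum, hDf, hTl, hKL⟩ := h1 G hG A l J hA hl hJ hlog
  obtain ⟨W, b, hWb, hspr, hcod⟩ := h2 G hG B0 hB0
  have hB' : IsLaw (fw W B0 b) := core_fw_law W hB0 b hWb
  have hun : IsLaw (un T) := un_law hT
  have hJr : (0 : ℝ) < (J : ℝ) := by exact_mod_cast hJ
  have hinv := h3 G hG W b (fw W B0 b) (un T) ps (16 * l / J) hB' hun hps hpos (by
    intro w hw
    refine hKL _ fun h0 => hw ?_
    unfold fw
    rw [h0, zero_div])
  have hDW : ∑ x, un T x * Df (fw W (un T) x) ≤ 4 * l := by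
    have h5 := DW_le_Df W hun
    have h6 : Df (un T) ≤ 4 * l := by
      unfold Df
      rw [un_ent hT]
      exact hTl
    exact h5.trans h6
  have hW2 : ∀ w : W, w + w = 0 := fun w => Subtype.ext (hG w)
  have hex : ∃ x, un T x ≠ 0 ∧ Ib (fw W B0 b) (fw W (un T) x) ≤ 48 * l / J ∧
      Df (fw W (un T) x) ≤ 12 * l := by
    by_contra hno
    push Not at hno
    have hpt : ∀ x, un T x ≤ un T x * (Ib (fw W B0 b) (fw W (un T) x) * (J / (48 * l)) +
        Df (fw W (un T) x) / (12 * l)) := by
      intro x
      rcases eq_or_ne (un T x) 0 with h0 | h0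
      · rw [h0, zero_mul]
      have hlaw := DW_law W hun h0
      have hI := Ib_nonneg hW2 hB' hlaw
      have hD := Df_nonneg hlaw
      have h7 : 1 ≤ Ib (fw W B0 b) (fw W (un T) x) * (J / (48 * l)) +
          Df (fw W (un T) x) / (12 * l) := by
        by_cases hc : Ib (fw W B0 b) (fw W (un T) x) ≤ 48 * l / J
        · have h8 := hno x h0 hc
          have h9 : 1 ≤ Df (fw W (un T) x) / (12 * l) := by
            rw [le_div_iff₀ (by positivity)]
            linarith
          have h10 : 0 ≤ Ib (fw W B0 b) (fw W (un T) x) * (J / (48 * l)) := by positivity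
          linarith
        · have h8 := not_le.1 hc
          have h9 : 1 ≤ Ib (fw W B0 b) (fw W (un T) x) * (J / (48 * l)) := by
            have h10 : 48 * l / J * (J / (48 * l)) = 1 := by field_simp
            rw [← h10]
            exact mul_le_mul_of_nonneg_right h8.le (by positivity)
          have h10 : 0 ≤ Df (fw W (un T) x) / (12 * l) := by positivity
          linarith
      calc un T x = un T x * 1 := (mul_one _).symm
        _ ≤ _ := mul_le_mul_of_nonneg_left h7 (hun.nn x)
    have h5 := sum_le_sum fun x (_ : x ∈ (univ : Finset G)) => hpt x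
    rw [hun.sum] at h5
    have h6 : ∑ x, un T x * (Ib (fw W B0 b) (fw W (un T) x) * (J / (48 * l)) +
        Df (fw W (un T) x) / (12 * l)) =
        (∑ x, un T x * Ib (fw W B0 b) (fw W (un T) x)) * (J / (48 * l)) +
        (∑ x, un T x * Df (fw W (un T) x)) * (1 / (12 * l)) := by
      rw [sum_mul, sum_mul, ← sum_add_distrib]
      refine sum_congr rfl fun x _ => by ring
    rw [h6] at h5
    have h7 : (∑ x, un T x * Ib (fw W B0 b) (fw W (un T) x)) * (J / (48 * l)) ≤
        16 * l / J * (J / (48 * l)) := mul_le_mul_of_nonneg_right hinv (by positivity)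
    have h8 : (∑ x, un T x * Df (fw W (un T) x)) * (1 / (12 * l)) ≤ 4 * l * (1 / (12 * l)) :=
      mul_le_mul_of_nonneg_right hDW (by positivity)
    have h9 : 16 * l / J * (J / (48 * l)) = 1 / 3 := by
      field_simp
      norm_num
    have h10 : 4 * l * (1 / (12 * l)) = 1 / 3 := by
      field_simp
      norm_num
    rw [h9] at h7
    rw [h10] at h8
    linarith
  obtain ⟨x, hx0, hxI, hxD⟩ := hex
  refine ⟨W, fw W B0 b, fw W (un T) x, hB', hspr, DW_law W hun hx0, ?_, hxI, hxD, ?_⟩
  · exact hcod.trans (by linarith)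
  · intro u v hu hv
    have hne : ∀ w : W, fw W (un T) x w ≠ 0 → x + w ∈ T := by
      intro w hw
      apply un_ne
      intro h0
      apply hw
      unfold fw
      rw [h0, zero_div]
    obtain ⟨a, ha, b', hb', c, hc, d, hd, he⟩ := hsum _ (hne u hu) _ (hne v hv)
    refine ⟨a, ha, b', hb', c, hc, d, hd, ?_⟩
    rw [← he]
    have h5 := hG x
    calc (u : G) + v = 0 + (u + v) := (zero_add _).symm
      _ = x + x + (u + v) := by rw [h5]
      _ = x + u + (x + v) := by abel

end Pool.Agent.DEN68
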