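import Pool.Agent.DEN68.Stmts

/-!
# DEN JNT: the joint law
-/

set_option autoImplicit false

namespace Pool.Agent.DEN68

open Finset Real Pool.Agent.BR
open scoped Classical

namespace JNTx

section

variable {G : Type} [AddCommGroup G] [Fintype G]

/-- the size of the numerator of `sA` -/
noncomputable def nn (A : Finset G) (x : G) : ℝ :=
  ((A.filter fun y => ∃ a ∈ A, ∃ b ∈ A, x + y = a + b).card : ℝ)

/-- the cube `A ^ N` -/
noncomputable def DD (A : Finset G) (N : ℕ) : Finset (Fin N → G) :=
  Fintype.piFinset fun _ : Fin N => A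

/-- the size of `Sy` -/
noncomputable def gg (A : Finset G) {N : ℕ} (y : Fin N → G) : ℝ := ((Sy A y).card : ℝ)

theorem count (A : Finset G) (N : ℕ) (f : G → ℝ) :
    ∑ y ∈ DD A N, ∑ x ∈ Sy A y, f x = ∑ x, nn A x ^ N * f x := by
  have h1 : ∀ y ∈ DD A N, ∑ x ∈ Sy A y, f x =
      ∑ x, if (∀ i, ∃ a ∈ A, ∃ b ∈ A, x + y i = a + b) then f x else 0 := by
    intro y _
    unfold Sy
    rw [sum_filter]
  rw [sum_congr rfl h1, sum_comm]
  refine sum_congr rfl fun x _ => ?_
  rw [← sum_filter, sum_const, nsmul_eq_mul]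
  congr 1
  have h2 : ((DD A N).filter fun y => ∀ i, ∃ a ∈ A, ∃ b ∈ A, x + y i = a + b) =
      Fintype.piFinset fun _ : Fin N =>
        A.filter fun y => ∃ a ∈ A, ∃ b ∈ A, x + y = a + b := by
    ext y
    simp only [DD, mem_filter, Fintype.mem_piFinset]
    constructor
    · intro h i
      exact ⟨h.1 i, h.2 i⟩
    · intro h
      exact ⟨fun i => (h i).1, fun i => (h i).2⟩
  rw [h2, Fintype.card_piFinset_const]
  unfold nn
  push_cast
  rfl

theorem gKL (S : Finset G) (ps : G → ℝ) (hps : ∀ x, 0 < ps x) :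
    (S.card : ℝ) * KL (un S) ps = -((S.card : ℝ) * log S.card) - ∑ x ∈ S, log (ps x) := by
  rcases S.eq_empty_or_nonempty with h | h
  · subst h
    simp
  · have hc : (0 : ℝ) < S.card := by exact_mod_cast h.card_pos
    unfold KL un
    have h1 : ∀ x, (if x ∈ S then 1 / (S.card : ℝ) else 0) *
        log ((if x ∈ S then 1 / (S.card : ℝ) else 0) / ps x) =
        if x ∈ S then (1 / (S.card : ℝ)) * (-log S.card - log (ps x)) else 0 := by
      intro x
      split_ifs
      · rw [log_div (by positivity) (hps x).ne', one_div, log_inv]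
      · simp
    rw [sum_congr rfl fun x _ => h1 x, sum_ite_mem, univ_inter, ← mul_sum, sum_sub_distrib,
      sum_const, nsmul_eq_mul]
    field_simp

theorem sA_eq (A : Finset G) (x : G) : sA A x = nn A x / (A.card : ℝ) := rfl

theorem sA_nonneg (A : Finset G) (x : G) : 0 ≤ sA A x := by
  rw [sA_eq]
  unfold nn
  positivity

theorem sA_mem (A : Finset G) (hA : A.Nonempty) (x : G) (hx : x ∈ A) : sA A x = 1 := by
  rw [sA_eq]
  unfold nn
  have h : (A.filter fun y => ∃ a ∈ A, ∃ b ∈ A, x + y = a + b) = A := by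
    rw [filter_eq_self]
    intro y hy
    exact ⟨x, hx, y, hy, rfl⟩
  rw [h]
  have hc : (0 : ℝ) < A.card := by exact_mod_cast hA.card_pos
  exact div_self hc.ne'

theorem M_ge (A : Finset G) (hA : A.Nonempty) (N : ℕ) :
    (A.card : ℝ) ≤ ∑ x, sA A x ^ N := by
  calc (A.card : ℝ) = ∑ x ∈ A, (1 : ℝ) := by rw [sum_const, nsmul_eq_mul, mul_one]
    _ = ∑ x ∈ A, sA A x ^ N := by
      refine sum_congr rfl fun x hx => ?_
      rw [sA_mem A hA x hx, one_pow]
    _ ≤ ∑ x, sA A x ^ N := sum_le_sum_of_subset_of_nonneg (subset_univ _)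
        fun x _ _ => pow_nonneg (sA_nonneg A x) N

theorem card_cube (N : ℕ) (inst : Fintype (Fin N → G)) :
    @Fintype.card (Fin N → G) inst = Fintype.card G ^ N := by
  rw [← Nat.card_eq_fintype_card, Nat.card_fun, Nat.card_eq_fintype_card, Nat.card_fin]

end

end JNTx

open JNTx in
theorem thm_JNT : St_JNT := by
  intro G _ _ _ A N l th hA hN hth hl
  have hA0 : (0 : ℝ) < A.card := by exact_mod_cast hA.card_pos
  set M : ℝ := ∑ x, sA A x ^ N with hM
  have hMge : (A.card : ℝ) ≤ M := M_ge A hA N
  have hM0 : 0 < M := lt_of_lt_of_le hA0 hMge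
  set T : ℝ := (A.card : ℝ) ^ N * M with hT
  have hT0 : 0 < T := by positivity
  have hNN : ∀ x, nn A x ^ N = T * (sA A x ^ N / M) := by
    intro x
    rw [sA_eq, hT, div_pow]
    field_simp
  have hph : ∑ x, sA A x ^ N / M = 1 := by
    rw [← sum_div, ← hM, div_self hM0.ne']
  have hcnt : ∀ f : G → ℝ, ∑ y ∈ DD A N, ∑ x ∈ Sy A y, f x =
      T * ∑ x, sA A x ^ N / M * f x := by
    intro f
    rw [count, mul_sum]
    refine sum_congr rfl fun x _ => ?_
    rw [hNN x]
    ring
  have hgsum : ∑ y ∈ DD A N, gg A y = T := by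
    have h := hcnt fun _ => 1
    simp only [sum_const, nsmul_eq_mul, mul_one] at h
    rw [hph, mul_one] at h
    exact h
  have hg0 : ∀ y : Fin N → G, 0 ≤ gg A y := fun y => Nat.cast_nonneg _
  have hgG : ∀ y : Fin N → G, gg A y ≤ Fintype.card G := by
    intro y
    unfold gg
    exact_mod_cast card_le_univ _
  have hG0 : (0 : ℝ) < Fintype.card G := by
    have : Nonempty G := ⟨0⟩
    exact_mod_cast Fintype.card_pos
  set R : (Fin N → G) → ℝ := fun y => if y ∈ DD A N then gg A y / T else 0 with hR
  have hRsum : ∀ F : (Fin N → G) → ℝ, ∑ y, R y * F y = ∑ y ∈ DD A N, gg A y / T * F y := by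
    intro F
    simp only [hR, ite_mul, zero_mul]
    rw [sum_ite_mem, univ_inter]
  have hRlaw : IsLaw R := by
    constructor
    · intro y
      simp only [hR]
      split_ifs
      · exact div_nonneg (hg0 y) hT0.le
      · exact le_rfl
    · have h := hRsum fun _ => 1
      simp only [mul_one] at h
      rw [h, ← sum_div, hgsum, div_self hT0.ne']
  -- the average of the logarithm
  set E : ℝ := ∑ y ∈ DD A N, gg A y / T * log (gg A y) with hE
  have hDcard : ((DD A N).card : ℝ) = (A.card : ℝ) ^ N := by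
    unfold DD
    rw [Fintype.card_piFinset_const]
    push_cast
    rfl
  have hgT : ∑ y ∈ DD A N, gg A y / T = 1 := by
    rw [← sum_div, hgsum, div_self hT0.ne']
  have hlogg : ∀ y : Fin N → G, gg A y / T * log (gg A y / T) =
      gg A y / T * log (gg A y) - gg A y / T * log T := by
    intro y
    rcases eq_or_ne (gg A y) 0 with h0 | h0
    · rw [h0]
      simp
    · rw [log_div h0 hT0.ne']
      ring
  have hsumlog : ∑ y ∈ DD A N, gg A y / T * log (gg A y / T) = E - log T := by
    rw [sum_congr rfl fun y _ => hlogg y, sum_sub_distrib, ← sum_mul, hgT, one_mul]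
  have hlogT : log T = N * log A.card + log M := by
    rw [hT, log_mul (by positivity) hM0.ne', log_pow]
  have hEM : log M ≤ E := by
    have h := gibbs (DD A N) (fun y => gg A y / T) (fun _ => 1 / (A.card : ℝ) ^ N)
      (fun y _ => div_nonneg (hg0 y) hT0.le) (fun _ _ => by positivity)
      (fun _ _ h => by
        exfalso
        have h3 : (0 : ℝ) < 1 / (A.card : ℝ) ^ N := by positivity
        exact h3.ne' h) (by
        rw [hgT, sum_const, nsmul_eq_mul, hDcard]
        rw [mul_one_div_cancel (by positivity)])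
    rw [hsumlog, ← sum_mul, hgT, one_mul, one_div, log_inv, log_pow, hlogT] at h
    linarith
  have hEG : E ≤ log (Fintype.card G) := by
    have h : E ≤ ∑ y ∈ DD A N, gg A y / T * log (Fintype.card G) := by
      refine sum_le_sum fun y _ => ?_
      rcases eq_or_ne (gg A y) 0 with h0 | h0
      · rw [h0]
        simp
      · refine mul_le_mul_of_nonneg_left ?_ (div_nonneg (hg0 y) hT0.le)
        exact log_le_log (lt_of_le_of_ne (hg0 y) (Ne.symm h0)) (hgG y)
    rw [← sum_mul, hgT, one_mul] at h
    exact h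
  have hlogMA : log A.card ≤ log M := log_le_log hA0 hMge
  -- the positive law
  set ps : G → ℝ := fun x => exp (-th) * (sA A x ^ N / M) + (1 - exp (-th)) / Fintype.card G
    with hps
  have hexp1 : exp (-th) < 1 := by
    rw [exp_lt_one_iff]
    linarith
  have hph0 : ∀ x, 0 ≤ sA A x ^ N / M := fun x =>
    div_nonneg (pow_nonneg (sA_nonneg A x) N) hM0.le
  have hps1 : ∀ x, 0 < ps x := by
    intro x
    have h1 : 0 < (1 - exp (-th)) / Fintype.card G := div_pos (by linarith) hG0
    have h2 : 0 ≤ exp (-th) * (sA A x ^ N / M) := mul_nonneg (exp_pos _).le (hph0 x)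
    simp only [hps]
    linarith
  have hps2 : ∀ x, exp (-th) * (sA A x ^ N / M) ≤ ps x := by
    intro x
    have h1 : 0 < (1 - exp (-th)) / Fintype.card G := div_pos (by linarith) hG0
    simp only [hps]
    linarith
  have hpslaw : IsLaw ps := by
    refine ⟨fun x => (hps1 x).le, ?_⟩
    simp only [hps]
    rw [sum_add_distrib, ← mul_sum, hph, sum_const, card_univ, nsmul_eq_mul,
      mul_div_cancel₀ _ hG0.ne']
    ring
  have hlogps : ∀ x, sA A x ^ N / M * (-log (ps x)) ≤
      sA A x ^ N / M * (th + log M) + (N : ℝ) * (sA A x ^ N / M * (-log (sA A x))) := by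
    intro x
    rcases eq_or_ne (sA A x) 0 with h0 | h0
    · rw [h0, zero_pow (by omega)]
      simp
    · have hs0 : 0 < sA A x := lt_of_le_of_ne (sA_nonneg A x) (Ne.symm h0)
      have h1 : log (exp (-th) * (sA A x ^ N / M)) ≤ log (ps x) :=
        log_le_log (mul_pos (exp_pos _) (div_pos (pow_pos hs0 N) hM0)) (hps2 x)
      rw [log_mul (exp_pos _).ne' (div_pos (pow_pos hs0 N) hM0).ne', log_exp,
        log_div (pow_pos hs0 N).ne' hM0.ne', log_pow] at h1
      have h2 : sA A x ^ N / M * (-log (ps x)) ≤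
          sA A x ^ N / M * (th + log M - N * log (sA A x)) :=
        mul_le_mul_of_nonneg_left (by linarith) (hph0 x)
      refine h2.trans (le_of_eq ?_)
      ring
  refine ⟨R, ps, hRlaw, hpslaw, hps1, ?_, ?_, ?_, ?_⟩
  · intro y hy
    rw [← card_pos]
    rcases Nat.eq_zero_or_pos (Sy A y).card with h0 | h0
    · exfalso
      apply hy
      simp only [hR, gg, h0, Nat.cast_zero, zero_div, ite_self]
    · exact h0
  · rw [hRsum]
    have h1 : ∀ y ∈ DD A N, gg A y / T * KL (un (Sy A y)) ps =
        -(gg A y / T * log (gg A y)) + T⁻¹ * ∑ x ∈ Sy A y, -log (ps x) := by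
      intro y _
      have h := gKL (Sy A y) ps hps1
      rw [div_mul_eq_mul_div]
      change gg A y * KL (un (Sy A y)) ps / T = _
      rw [show gg A y * KL (un (Sy A y)) ps = -(gg A y * log (gg A y)) -
        ∑ x ∈ Sy A y, log (ps x) from h, sum_neg_distrib]
      field_simp
      ring
    rw [sum_congr rfl h1, sum_add_distrib, sum_neg_distrib, ← mul_sum, hcnt, ← mul_assoc,
      inv_mul_cancel₀ hT0.ne', one_mul]
    have h2 := sum_le_sum fun x (_ : x ∈ (univ : Finset G)) => hlogps x
    rw [sum_add_distrib, ← sum_mul, hph, one_mul, ← mul_sum] at h2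
    have h3 : (∑ x, sA A x ^ N / M * (-log (sA A x))) * M =
        ∑ x, sA A x ^ N * (-log (sA A x)) := by
      rw [sum_mul]
      refine sum_congr rfl fun x _ => ?_
      field_simp
    have h4 : (-E + ∑ x, sA A x ^ N / M * (-log (ps x))) ≤
        th + (N : ℝ) * ∑ x, sA A x ^ N / M * (-log (sA A x)) := by linarith
    have h5 := mul_le_mul_of_nonneg_right h4 hM0.le
    refine h5.trans (le_of_eq ?_)
    rw [← h3]
    ring
  · rw [hRsum]
    have h1 : ∑ y ∈ DD A N, gg A y / T * (log (Fintype.card G) - log (Sy A y).card) =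
        log (Fintype.card G) - E := by
      simp only [mul_sub, sum_sub_distrib]
      rw [← sum_mul, hgT, one_mul]
      rfl
    rw [h1]
    linarith
  · have h1 : ent R = log T - E := by
      unfold ent
      have h2 : ∀ y, negMulLog (R y) = if y ∈ DD A N then -(gg A y / T * log (gg A y / T)) else 0 := by
        intro y
        simp only [hR]
        split_ifs
        · unfold negMulLog
          ring
        · exact negMulLog_zero
      rw [sum_congr rfl fun y _ => h2 y, sum_ite_mem, univ_inter, sum_neg_distrib, hsumlog]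
      ring
    have h2 : log (Fintype.card (Fin N → G)) = N * log (Fintype.card G) := by
      rw [card_cube N _, Nat.cast_pow, log_pow]
    rw [h1, h2, hlogT]
    have h3 : (N : ℝ) * (log (Fintype.card G) - log A.card) ≤ N * l :=
      mul_le_mul_of_nonneg_left hl (Nat.cast_nonneg _)
    nlinarith

end Pool.Agent.DEN68
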