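import Pool.Agent.DEN68.Stmts
import Pool.Agent.BR.LemT
import Pool.Agent.BR.PairT
import Pool.Agent.BR.Coset
import Pool.Agent.BR.ThmA
import Pool.Agent.BR.Num
import Pool.Agent.BR.ThmB

/-!
# DEN (MP_68cffc_co): the linear strong data processing inequality
-/

set_option autoImplicit false

namespace Pool.Agent.DEN68

open Finset Real Pool.Agent.BR
open scoped Classical

theorem lsd_be {L : ℝ} (hL : 1 ≤ L) : ∃ be : ℝ, 0 < be ∧ be ≤ 1 / 5 ∧ L ^ be ≤ exp 1 := by
  have h0 : 0 < L := by linarith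
  by_cases h : log L ≤ 5
  · refine ⟨1 / 5, by norm_num, le_rfl, ?_⟩
    rw [rpow_def_of_pos h0]
    exact exp_le_exp.2 (by linarith)
  · push Not at h
    have h5 : 0 < log L := by linarith
    refine ⟨1 / log L, by positivity, ?_, ?_⟩
    · exact one_div_le_one_div_of_le (by norm_num) h.le
    · rw [rpow_def_of_pos h0, mul_one_div_cancel h5.ne']

theorem lsd_F {be a s : ℝ} (hb : 0 < be) (ha : 1 ≤ a) (hs : 0 ≤ s) :
    (s / a) ^ 400 * a ≤ thmB_F be a s := by
  have h0 : 0 < a := by linarith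
  have h1 : 1 ≤ a ^ be := one_le_rpow ha hb.le
  have h2 : a ^ (1 + be - 400) = a ^ be * a / a ^ 400 := by
    rw [show (1 + be - 400 : ℝ) = be + 1 - (400 : ℕ) by push_cast; ring, rpow_sub h0,
      rpow_add h0, rpow_one, rpow_natCast]
  unfold thmB_F
  rw [h2, div_pow]
  have h3 : 0 ≤ s ^ 400 / a ^ 400 * a := by positivity
  calc s ^ 400 / a ^ 400 * a ≤ a ^ be * (s ^ 400 / a ^ 400 * a) := le_mul_of_one_le_left h3 h1
    _ = a ^ be * a / a ^ 400 * s ^ 400 := by ring

theorem thm_LSD : St_LSD := by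
  have hPT : St_PairT := thm_PairT thm_LemT
  have hA : St_ThmA := thm_ThmA hPT thm_DZero thm_Coset
  intro G _ _ h2 B p hB hSp hp hD
  have hD0 : 0 < Df p := by linarith
  have hL : 1 ≤ log (Fintype.card G : ℝ) := hD.trans (Df_le hp)
  obtain ⟨be, hb, hb1, hbL⟩ := lsd_be hL
  have hI := Ib_nonneg h2 hB hp
  refine le_of_forall_pos_le_add fun δ hδ => ?_
  obtain ⟨Q, hQ, hyp⟩ := thmB_Q hPT hA thm_Tan thm_Num h2 (e := δ / (9 * Df p))
    hb hb1 (by positivity) hB hSp ⟨p, hp, hD0⟩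
  have h := hyp p p hp hp (by linarith)
  have e1 : (Df p + Df p) / 2 = Df p := by ring
  have e2 : (Ib B p + Ib B p) / 2 = Ib B p := by ring
  unfold thmB_J at h
  rw [e1, e2] at h
  have hLb : 0 < log (Fintype.card G : ℝ) ^ be := rpow_pos_of_pos (by linarith) _
  have hQ0 : 0 ≤ Q := by
    by_contra hc
    push Not at hc
    have := mul_neg_of_pos_of_neg hLb hc
    linarith
  have hQ9 : 1 / 9 ≤ Q := by
    have h3 := mul_le_mul_of_nonneg_right hbL hQ0
    have h4 := exp_one_lt_d9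
    nlinarith
  have hs : 0 ≤ Df (conv p p) := Df_nonneg (conv_law hp hp)
  have h5 : (Df (conv p p) / Df p) ^ 400 * Df p ≤ thmB_Phi be (Df p) (Df (conv p p)) :=
    (lsd_F hb hD hs).trans (le_max_left _ _)
  have h6 : 0 ≤ (Df (conv p p) / Df p) ^ 400 * Df p := by positivity
  have h7 : 1 / 9 * ((Df (conv p p) / Df p) ^ 400 * Df p) ≤
      Q * thmB_Phi be (Df p) (Df (conv p p)) :=
    mul_le_mul hQ9 h5 h6 hQ0
  have h8 : δ / (9 * Df p) * Df p = δ / 9 := by
    field_simp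
  rw [h8] at h
  linarith

end Pool.Agent.DEN68
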