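import Pool.Agent.DEN68.Stmts

/-!
# DEN: module WIN (a good number of samples)
-/

set_option autoImplicit false

open Finset Real

namespace Pool.Agent.DEN68

private theorem win_pt (s r : ℝ) (m : ℕ) (hm : 1 ≤ m) (hs : 0 ≤ s) (hr : 0 < r) :
    (m : ℝ) * (s ^ (2 * m) * (-log s)) ≤ s ^ m / r - s ^ (2 * m) + log r * s ^ (2 * m) := by
  rcases hs.eq_or_lt with h | h
  · rw [← h, zero_pow (by omega), zero_pow (by omega)]
    simp
  · have h1 : 0 < s ^ m := pow_pos h m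
    have h2 : log (1 / (s ^ m * r)) ≤ 1 / (s ^ m * r) - 1 :=
      log_le_sub_one_of_pos (by positivity)
    have h3 : log (1 / (s ^ m * r)) = -((m : ℝ) * log s) - log r := by
      rw [one_div, log_inv, log_mul h1.ne' hr.ne', log_pow]
      ring
    rw [h3] at h2
    have h4 : 0 < s ^ (2 * m) := pow_pos h _
    have h5 : s ^ (2 * m) * (1 / (s ^ m * r)) = s ^ m / r := by
      rw [two_mul, pow_add]
      field_simp
    have h6 : (m : ℝ) * (-log s) ≤ 1 / (s ^ m * r) - 1 + log r := by linarith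
    have h7 := mul_le_mul_of_nonneg_left h6 h4.le
    calc (m : ℝ) * (s ^ (2 * m) * (-log s)) = s ^ (2 * m) * ((m : ℝ) * (-log s)) := by ring
      _ ≤ s ^ (2 * m) * (1 / (s ^ m * r) - 1 + log r) := h7
      _ = s ^ (2 * m) * (1 / (s ^ m * r)) - s ^ (2 * m) + log r * s ^ (2 * m) := by ring
      _ = s ^ m / r - s ^ (2 * m) + log r * s ^ (2 * m) := by rw [h5]

theorem thm_WIN : St_WIN := by
  intro Ω _ s l J h0 h1 hJ hl
  rcases isEmpty_or_nonempty Ω with hΩ | hΩ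
  · refine ⟨1, le_rfl, Nat.one_le_two_pow, ?_⟩
    simp
  have hcard : 0 < (Fintype.card Ω : ℝ) := by exact_mod_cast Fintype.card_pos
  have hM1 : ∀ N : ℕ, (Fintype.card Ω : ℝ) * exp (-l) ≤ ∑ x, s x ^ N := by
    intro N
    refine hl.trans ?_
    have h2 : ((univ.filter fun x => s x = 1).card : ℝ) = ∑ x ∈ univ.filter (fun x => s x = 1), s x ^ N := by
      rw [Finset.card_eq_sum_ones, Nat.cast_sum]
      refine Finset.sum_congr rfl fun x hx => ?_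
      rw [(Finset.mem_filter.1 hx).2, one_pow, Nat.cast_one]
    rw [h2]
    exact Finset.sum_le_sum_of_subset_of_nonneg (Finset.filter_subset _ _)
      (fun x _ _ => pow_nonneg (h0 x) N)
  have hMpos : ∀ N : ℕ, 0 < ∑ x, s x ^ N := fun N =>
    lt_of_lt_of_le (mul_pos hcard (exp_pos _)) (hM1 N)
  have hMle : ∀ N : ℕ, ∑ x, s x ^ N ≤ (Fintype.card Ω : ℝ) := by
    intro N
    calc ∑ x, s x ^ N ≤ ∑ _x : Ω, (1 : ℝ) := Finset.sum_le_sum fun x _ => pow_le_one₀ (h0 x) (h1 x)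
      _ = (Fintype.card Ω : ℝ) := by simp
  have htel : ∑ j ∈ range J, (log (∑ x, s x ^ (2 ^ j)) - log (∑ x, s x ^ (2 ^ (j + 1)))) ≤
      ∑ _j ∈ range J, l / J := by
    rw [Finset.sum_range_sub' (fun j => log (∑ x, s x ^ (2 ^ j))), Finset.sum_const, card_range,
      nsmul_eq_mul]
    have hJ0 : (J : ℝ) ≠ 0 := by
      have : 0 < J := hJ
      exact_mod_cast this.ne'
    rw [mul_div_cancel₀ _ hJ0]
    have h2 : log (∑ x, s x ^ (2 ^ 0)) ≤ log (Fintype.card Ω : ℝ) :=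
      log_le_log (hMpos _) (hMle _)
    have h3 : log (Fintype.card Ω : ℝ) - l ≤ log (∑ x, s x ^ (2 ^ J)) := by
      have h4 := log_le_log (mul_pos hcard (exp_pos (-l))) (hM1 (2 ^ J))
      rw [log_mul hcard.ne' (exp_pos _).ne', log_exp] at h4
      linarith
    linarith
  obtain ⟨j, hj, hjl⟩ := Finset.exists_le_of_sum_le ⟨0, mem_range.2 hJ⟩ htel
  rw [mem_range] at hj
  have hm : 1 ≤ 2 ^ j := Nat.one_le_two_pow
  refine ⟨2 * 2 ^ j, by omega, ?_, ?_⟩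
  · rw [← pow_succ']
    exact Nat.pow_le_pow_right (by norm_num) hj
  · have hpm := hMpos (2 ^ j)
    have hpN := hMpos (2 * 2 ^ j)
    rw [pow_succ'] at hjl
    have hr : 0 < (∑ x, s x ^ (2 ^ j)) / ∑ x, s x ^ (2 * 2 ^ j) := div_pos hpm hpN
    have hsum : ((2 ^ j : ℕ) : ℝ) * ∑ x, s x ^ (2 * 2 ^ j) * (-log (s x)) ≤
        (∑ x, s x ^ (2 ^ j)) / ((∑ x, s x ^ (2 ^ j)) / ∑ x, s x ^ (2 * 2 ^ j)) -
          ∑ x, s x ^ (2 * 2 ^ j) +
        log ((∑ x, s x ^ (2 ^ j)) / ∑ x, s x ^ (2 * 2 ^ j)) * ∑ x, s x ^ (2 * 2 ^ j) := by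
      rw [Finset.mul_sum, Finset.sum_div, Finset.mul_sum, ← Finset.sum_sub_distrib,
        ← Finset.sum_add_distrib]
      exact Finset.sum_le_sum fun x _ => win_pt (s x) _ (2 ^ j) hm (h0 x) hr
    have h2 : (∑ x, s x ^ (2 ^ j)) / ((∑ x, s x ^ (2 ^ j)) / ∑ x, s x ^ (2 * 2 ^ j)) =
        ∑ x, s x ^ (2 * 2 ^ j) := by
      rw [div_div_eq_mul_div, mul_comm, mul_div_assoc, div_self hpm.ne', mul_one]
    rw [h2, sub_self, zero_add, log_div hpm.ne' hpN.ne'] at hsum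
    have h3 := mul_le_mul_of_nonneg_right hjl hpN.le
    rw [Nat.cast_mul]
    have h4 : ((2 : ℕ) : ℝ) * ((2 ^ j : ℕ) : ℝ) * ∑ x, s x ^ (2 * 2 ^ j) * (-log (s x)) =
        2 * (((2 ^ j : ℕ) : ℝ) * ∑ x, s x ^ (2 * 2 ^ j) * (-log (s x))) := by
      push_cast
      ring
    rw [h4]
    calc 2 * (((2 ^ j : ℕ) : ℝ) * ∑ x, s x ^ (2 * 2 ^ j) * (-log (s x)))
        ≤ 2 * (l / J * ∑ x, s x ^ (2 * 2 ^ j)) :=
          mul_le_mul_of_nonneg_left (hsum.trans h3) (by norm_num)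
      _ = 2 * l / J * ∑ x, s x ^ (2 * 2 ^ j) := by ring

end Pool.Agent.DEN68
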