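import Pool.Agent.BR.Main
import Pool.Agent.DEN68.LSD
import Pool.Agent.DEN68.WIN
import Pool.Agent.DEN68.JNT
import Pool.Agent.DEN68.CLS
import Pool.Agent.DEN68.FBC
import Pool.Agent.DEN68.DNG
import Pool.Agent.DEN68.DNF

/-!
# DEN: assembly
-/

set_option autoImplicit false

namespace Pool.Agent.DEN68

open Pool.Agent.BR

theorem den_final : St_DNF := by
  have hDW : St_DW := thm_DW
  have hC : St_Core := thm_Core hDW
  have hI : St_Inv := thm_Inv hDW
  have hCLS : St_CLS := thm_CLS thm_WIN thm_JNT thm_Cond thm_Diag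
  have hFBC : St_FBC := thm_FBC hCLS hC hI hDW
  exact thm_DNF (thm_DNG thm_LSD hFBC) Pool.Agent.BR.final

end Pool.Agent.DEN68
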